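import Mathlib
import Pool.Agent.L7h19.EA.Stm
import Pool.Agent.L7h89.RP.StRank
import Pool.Agent.L7h24.EA.Loc

/-! Project EA: the rank bound for values, `S_RKE` (adapted from `Pool/Agent/L7h89/IT/Rk3.lean`). -/

set_option autoImplicit false
set_option linter.unusedSectionVars false

namespace Pool.Agent.L7h69.EA

open Finset Polynomial Pool.Agent.W262.RK Pool.Agent.W307.RT Pool.Agent.L7h19.RP
open Pool.Agent.L7h19.IS Pool.Agent.L7h19.IT Pool.Agent.L7h89.RP Pool.Agent.L7h19.EA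
open Pool.Agent.L7h19.FD (Pat)

variable {J : Type} [Fintype J] [DecidableEq J]

/-- the primes of the `S1` -/
def PP (z y : ℕ) (x : J → ℤ) : Finset ℕ := univ.biUnion (fun j => (S1 z y x j).primeFactors)

lemma mem_PP {z y : ℕ} {x : J → ℤ} {p : ℕ} :
    p ∈ PP z y x ↔ p.Prime ∧ ∃ j, p ∣ S1 z y x j := by
  unfold PP
  rw [mem_biUnion]
  constructor
  · rintro ⟨j, -, hj⟩
    exact ⟨Nat.prime_of_mem_primeFactors hj, j, Nat.dvd_of_mem_primeFactors hj⟩
  · rintro ⟨hp, j, hj⟩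
    exact ⟨j, mem_univ _, Nat.mem_primeFactors.2 ⟨hp, hj, (S1_sqf j).ne_zero⟩⟩

open Classical in
/-- the value of a rule at a prime -/
noncomputable def cc (ρ : J → Pat → Bool) (z y : ℕ) (x : J → ℤ) (E : Fin 3 → Finset ℕ)
    (p : ℕ) : Bool :=
  decide (∃ j, p ∣ S1 z y x j ∧ ρ j (fun i => decide (p ∈ E i)) = true)

lemma cc_eq {ρ : J → Pat → Bool} {z y : ℕ} {x : J → ℤ} {E : Fin 3 → Finset ℕ} (hG : Gd z x)
    {p : ℕ} (hp : p.Prime) {j : J} (hj : p ∣ S1 z y x j) :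
    cc ρ z y x E p = ρ j (fun i => decide (p ∈ E i)) := by
  classical
  have h : (∃ l, p ∣ S1 z y x l ∧ ρ l (fun i => decide (p ∈ E i)) = true) ↔
      ρ j (fun i => decide (p ∈ E i)) = true := by
    constructor
    · rintro ⟨l, hl, h2⟩
      have : l = j := S1_uniq hG hp hj hl
      rwa [this] at h2
    · intro h2
      exact ⟨j, hj, h2⟩
  unfold cc
  rw [Bool.eq_iff_iff, decide_eq_true_iff]
  exact h

lemma cpr_eq {ρ : J → Pat → Bool} {z y : ℕ} {x : J → ℤ} {E : Fin 3 → Finset ℕ} (hG : Gd z x) :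
    pd (PP z y x) (cc ρ z y x E) = cpr ρ (S1 z y x) E := by
  classical
  unfold pd cpr
  have h1 : (PP z y x).filter (fun p => cc ρ z y x E p = true) = univ.biUnion (fun j =>
      (S1 z y x j).primeFactors.filter (fun p => ρ j (fun i => decide (p ∈ E i)) = true)) := by
    ext p
    rw [mem_filter, mem_PP, mem_biUnion]
    constructor
    · rintro ⟨⟨hp, j, hj⟩, h2⟩
      rw [cc_eq hG hp hj] at h2
      exact ⟨j, mem_univ _, mem_filter.2 ⟨Nat.mem_primeFactors.2 ⟨hp, hj, (S1_sqf j).ne_zero⟩, h2⟩⟩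
    · rintro ⟨j, -, h2⟩
      rw [mem_filter] at h2
      have hp := Nat.prime_of_mem_primeFactors h2.1
      have hj := Nat.dvd_of_mem_primeFactors h2.1
      refine ⟨⟨hp, j, hj⟩, ?_⟩
      rw [cc_eq hG hp hj]
      exact h2.2
  rw [h1, prod_biUnion]
  intro i _ j _ hij
  rw [Function.onFun, disjoint_left]
  intro p hp1 hp2
  rw [mem_filter] at hp1 hp2
  apply hij
  exact S1_uniq hG (Nat.prime_of_mem_primeFactors hp1.1) (Nat.dvd_of_mem_primeFactors hp2.1)
    (Nat.dvd_of_mem_primeFactors hp1.1)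

lemma pf_pd {P : Finset ℕ} {c : ℕ → Bool} (hP : ∀ p ∈ P, p.Prime) :
    (pd P c).primeFactors = P.filter (fun p => c p = true) := by
  unfold pd
  exact Nat.primeFactors_prod (fun p hp => hP p (mem_filter.1 hp).1)

/-- the number of the primes outside `PP` -/
lemma bad {M : ℤ} {x : J → ℤ} {z y X K D : ℕ} (hG : Gd z x)
    (hM : ∀ p : ℕ, p.Prime → z < p → (p : ℤ) ∣ M → ∃ j, (p : ℤ) ∣ x j) (hy : 1 ≤ y)
    (hb : ∀ j, (x j).natAbs ≤ X ^ D) (hK : X < (y + 1) ^ K) :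
    (M.natAbs.primeFactors.filter (fun q => q ∉ PP z y x)).card ≤
      z + Fintype.card J * (D * K) + ∑ j, (S2 z y x j).primeFactors.card := by
  have h0 := hG.1
  have hsub : (M.natAbs.primeFactors.filter (fun q => q ∉ PP z y x)) ⊆
      ((Icc 1 z) ∪ univ.biUnion (fun j => (x j).natAbs.primeFactors.filter (y < ·))) ∪
        univ.biUnion (fun j => (S2 z y x j).primeFactors) := by
    intro q hq
    rw [mem_filter] at hq
    have hp := Nat.prime_of_mem_primeFactors hq.1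
    have hdv := Nat.dvd_of_mem_primeFactors hq.1
    rw [mem_union, mem_union, mem_Icc]
    rcases Nat.lt_or_ge z q with h | h
    swap
    · exact Or.inl (Or.inl ⟨hp.one_lt.le, h⟩)
    · have hdv2 : (q : ℤ) ∣ M := Int.natCast_dvd.2 hdv
      obtain ⟨l, hl⟩ := hM q hp h hdv2
      rcases Nat.lt_or_ge y q with hyq | hyq
      · left; right
        rw [mem_biUnion]
        refine ⟨l, mem_univ _, ?_⟩
        rw [mem_filter, Nat.mem_primeFactors]
        exact ⟨⟨hp, Int.natCast_dvd.1 hl, Int.natAbs_ne_zero.2 (h0 l)⟩, hyq⟩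
      · right
        have hPS : q ∈ PS z y := mem_PS.2 ⟨⟨h, hyq⟩, hp⟩
        rw [mem_biUnion]
        refine ⟨l, mem_univ _, ?_⟩
        have hsq : (q : ℤ) ^ 2 ∣ x l := by
          by_contra hcon
          apply hq.2
          rw [mem_PP]
          refine ⟨hp, l, ?_⟩
          exact dvd_prod_of_mem _ (mem_filter.2 ⟨hPS, hl, hcon⟩)
        rw [Nat.mem_primeFactors]
        refine ⟨hp, dvd_prod_of_mem _ (mem_filter.2 ⟨hPS, hsq⟩), ?_⟩
        exact prod_ne_zero_iff.2 fun p hp => (mem_PS.1 (mem_filter.1 hp).1).2.ne_zero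
  have hone : ∀ j, ((x j).natAbs.primeFactors.filter (y < ·)).card ≤ D * K := by
    intro j
    set S := (x j).natAbs.primeFactors.filter (y < ·) with hS
    have h1 : (y + 1) ^ S.card ≤ ∏ q ∈ S, q :=
      Finset.pow_card_le_prod _ _ _ (fun q hq => by
        have := (mem_filter.1 hq).2
        omega)
    have h2 : ∏ q ∈ S, q ∣ (x j).natAbs :=
      (prod_dvd_prod_of_subset _ _ _ (filter_subset _ _)).trans (Nat.prod_primeFactors_dvd _)
    have h3 : ∏ q ∈ S, q ≤ (x j).natAbs :=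
      Nat.le_of_dvd (Nat.pos_of_ne_zero (Int.natAbs_ne_zero.2 (h0 j))) h2
    have h4 : (y + 1) ^ S.card ≤ (y + 1) ^ (D * K) := by
      calc (y + 1) ^ S.card ≤ X ^ D := h1.trans (h3.trans (hb j))
        _ ≤ ((y + 1) ^ K) ^ D := Nat.pow_le_pow_left hK.le D
        _ = (y + 1) ^ (D * K) := by rw [← pow_mul, mul_comm]
    exact (Nat.pow_le_pow_iff_right (by omega)).1 h4
  refine (card_le_card hsub).trans ((card_union_le _ _).trans (add_le_add
    ((card_union_le _ _).trans (add_le_add ?_ ?_)) card_biUnion_le))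
  · simp
  · refine card_biUnion_le.trans ?_
    refine (sum_le_sum fun j _ => hone j).trans ?_
    rw [sum_const, card_univ, smul_eq_mul]

/-- comparison of the two counts -/
lemma cnt (Q Q' P : Finset ℕ) (f : ℕ → Prop) [DecidablePred f] (c : ℕ → Bool)
    (h1 : ∀ p ∈ P, (f p ↔ c p = true)) (h2 : ∀ p ∈ P, c p = true → p ∈ Q) (hQ : Q ⊆ Q') :
    ∃ A : ℕ, (Q.filter f).card = (P.filter (fun p => c p = true)).card + A ∧
      A ≤ (Q'.filter (fun p => p ∉ P)).card := by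
  refine ⟨((Q.filter f).filter (fun p => p ∉ P)).card, ?_, ?_⟩
  · rw [← card_filter_add_card_filter_not (s := Q.filter f) (fun p => p ∈ P)]
    congr 2
    ext p
    rw [mem_filter, mem_filter, mem_filter]
    constructor
    · rintro ⟨⟨_, h4⟩, h5⟩
      exact ⟨h5, (h1 p h5).1 h4⟩
    · rintro ⟨h4, h5⟩
      exact ⟨⟨h2 p h4 h5, (h1 p h4).2 h5⟩, h4⟩
  · apply card_le_card
    intro p hp
    rw [mem_filter, mem_filter] at hp
    exact mem_filter.2 ⟨hQ hp.1.1, hp.2⟩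

/-- good primes -/
lemma good {a b : ℤ} {p : ℕ} (hp : p.Prime) (hp2 : p ≠ 2)
    (h : ¬ (p : ℤ) ∣ b * (a ^ 2 - 4 * b)) : ¬ OddAt p a b := by
  haveI : Fact p.Prime := ⟨hp⟩
  have h3 := (Pool.Agent.L7h24.EA.s_N3 p a b false hp2 (fun h1 => h (h1.mul_right _))
    (fun h1 => h (h1.mul_left _))).1
  intro h4
  exact absurd (h3.1 h4) (by decide)

theorem s_RKE (hdes : S_DSE) : S_RKE := by
  intro J _ _ a b x z y X k D cl rw' E hz2 hG hb0 hc0 hprim hb hX hy hk hloc
  classical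
  set P := PP z y x with hPdef
  set c1 := cc cl z y x E with hc1
  set c2 := cc rw' z y x E with hc2
  have hPp : ∀ p ∈ P, p.Prime := fun p hp => (mem_PP.1 hp).1
  have hPz : ∀ p ∈ P, z < p := by
    intro p hp
    obtain ⟨hpp, j, hj⟩ := mem_PP.1 hp
    exact (mem_PS.1 ((S1_dvd_iff hpp).1 hj).1).1.1
  have hP2 : ∀ p ∈ P, p ≠ 2 := fun p hp h => by
    have := hPz p hp
    omega
  have hL : ∀ p ∈ P, p ≠ 2 ∧ ∃ _ : Fact p.Prime, Loc p a b (c1 p) (c2 p) (decide (p ∈ E 0)) := by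
    intro p hp
    obtain ⟨hpp, j, hj⟩ := mem_PP.1 hp
    obtain ⟨hf, hl⟩ := hloc j p hpp hj
    refine ⟨hP2 p hp, hf, ?_⟩
    rw [hc1, hc2, cc_eq hG hpp hj, cc_eq hG hpp hj]
    exact hl
  have hd := hdes a b P (E 0) c1 c2 hb0 hc0 hL
  rw [hPdef, hc1, hc2, cpr_eq hG, cpr_eq hG, ← hPdef] at hd
  -- the bad primes
  have hB := bad (M := 2 * b * (a ^ 2 - 4 * b)) (y := y) hG (fun p hp hzp h => by
    apply hprim p hp hzp
    have hpi : Prime (p : ℤ) := Nat.prime_iff_prime_int.1 hp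
    rw [mul_assoc] at h
    rcases hpi.dvd_or_dvd h with h1 | h1
    · exfalso
      have h2 : p ∣ 2 := by exact_mod_cast h1
      have := Nat.le_of_dvd (by norm_num) h2
      omega
    · exact h1) hy hb hk
  rw [← hPdef] at hB
  set B := ((2 * b * (a ^ 2 - 4 * b)).natAbs.primeFactors.filter (fun p => p ∉ P)).card with hBd
  -- the numbers of columns and rows
  have hM0 : 2 * b * (a ^ 2 - 4 * b) ≠ 0 := mul_ne_zero (mul_ne_zero two_ne_zero hb0) hc0
  have hbc0 : b * (a ^ 2 - 4 * b) ≠ 0 := mul_ne_zero hb0 hc0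
  have hQQ : (b * (a ^ 2 - 4 * b)).natAbs.primeFactors ⊆
      (2 * b * (a ^ 2 - 4 * b)).natAbs.primeFactors :=
    Nat.primeFactors_mono (Int.natAbs_dvd_natAbs.mpr ⟨2, by ring⟩) (Int.natAbs_ne_zero.2 hM0)
  have hin : ∀ p ∈ P, (OddAt p a b ∨ OddAt p (-2 * a) (a ^ 2 - 4 * b)) →
      p ∈ (b * (a ^ 2 - 4 * b)).natAbs.primeFactors := by
    intro p hp h
    rw [Nat.mem_primeFactors]
    refine ⟨hPp p hp, ?_, Int.natAbs_ne_zero.2 hbc0⟩
    by_contra hcon
    have hnd : ¬ (p : ℤ) ∣ b * (a ^ 2 - 4 * b) := fun h1 => hcon (Int.natCast_dvd.1 h1)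
    rcases h with h | h
    · exact good (hPp p hp) (hP2 p hp) hnd h
    · refine good (hPp p hp) (hP2 p hp) ?_ h
      intro h1
      apply hnd
      have hpi : Prime (p : ℤ) := Nat.prime_iff_prime_int.1 (hPp p hp)
      have e1 : (a ^ 2 - 4 * b) * ((-2 * a) ^ 2 - 4 * (a ^ 2 - 4 * b)) =
          2 ^ 4 * (b * (a ^ 2 - 4 * b)) := by ring
      rw [e1] at h1
      rcases hpi.dvd_or_dvd h1 with h2 | h2
      · exfalso
        have h3 := hpi.dvd_of_dvd_pow h2
        have h4 : p ∣ 2 := by exact_mod_cast h3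
        have := Nat.le_of_dvd (by norm_num) h4
        have := hPz p hp
        omega
      · exact h2
  have hO1 : ∀ p ∈ P, (OddAt p a b ↔ c1 p = true) := fun p hp => (hL p hp).2.choose_spec.1.1
  have hO2 : ∀ p ∈ P, (OddAt p (-2 * a) (a ^ 2 - 4 * b) ↔ c2 p = true) :=
    fun p hp => (hL p hp).2.choose_spec.2.1
  obtain ⟨A1, hA1, hA1'⟩ := cnt (b * (a ^ 2 - 4 * b)).natAbs.primeFactors
    (2 * b * (a ^ 2 - 4 * b)).natAbs.primeFactors P (fun p => OddAt p a b) c1 hO1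
    (fun p hp h => hin p hp (Or.inl ((hO1 p hp).2 h))) hQQ
  obtain ⟨A2, hA2, hA2'⟩ := cnt (b * (a ^ 2 - 4 * b)).natAbs.primeFactors
    (2 * b * (a ^ 2 - 4 * b)).natAbs.primeFactors P
    (fun p => OddAt p (-2 * a) (a ^ 2 - 4 * b)) c2 hO2
    (fun p hp h => hin p hp (Or.inr ((hO2 p hp).2 h))) hQQ
  rw [← hBd] at hA1' hA2'
  have hm : (cpr cl (S1 z y x) E).primeFactors.card = (P.filter (fun p => c1 p = true)).card := by
    rw [← cpr_eq hG, pf_pd hPp]
  have hn : (cpr rw' (S1 z y x) E).primeFactors.card = (P.filter (fun p => c2 p = true)).card := by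
    rw [← cpr_eq hG, pf_pd hPp]
  rw [← hm] at hA1
  rw [← hn] at hA2
  have hdl : dl a b = (((cpr cl (S1 z y x) E).primeFactors.card : ℝ) + A1) -
      (((cpr rw' (S1 z y x) E).primeFactors.card : ℝ) + A2) := by
    unfold dl
    congr 1
    · have h1 : ((((b * (a ^ 2 - 4 * b)).natAbs.primeFactors.filter
          (fun p => OddAt p a b)).card : ℕ) : ℝ) =
          (((cpr cl (S1 z y x) E).primeFactors.card + A1 : ℕ) : ℝ) := by exact_mod_cast hA1
      rw [Nat.cast_add] at h1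
      rw [← h1]
    · have h1 : ((((b * (a ^ 2 - 4 * b)).natAbs.primeFactors.filter
          (fun p => OddAt p (-2 * a) (a ^ 2 - 4 * b))).card : ℕ) : ℝ) =
          (((cpr rw' (S1 z y x) E).primeFactors.card + A2 : ℕ) : ℝ) := by exact_mod_cast hA2
      rw [Nat.cast_add] at h1
      rw [← h1]
  set m := cpr cl (S1 z y x) E with hmd
  set n := cpr rw' (S1 z y x) E with hnd
  set R := Module.finrank ℤ (EI a b).toAffine.Point with hR
  set S := ∑ j, (S2 z y x j).primeFactors.card with hS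
  unfold G3
  set W : ℝ := (N3 (eE (E 0)) m n : ℝ) * (N3 (eE' (E 0)) n m : ℝ) with hW
  have hW0 : 0 ≤ W := by positivity
  have hd' : (2 : ℝ) ^ (R : ℝ) ≤ (2 : ℝ) ^ (2 * (B : ℝ) + 2) * W := by
    have h1 : ((2 ^ R : ℕ) : ℝ) ≤
        (((2 ^ (B + 1) * N3 (eE (E 0)) m n) * (2 ^ (B + 1) * N3 (eE' (E 0)) n m) : ℕ) : ℝ) := by
      exact_mod_cast hd
    have h2 : (2 : ℝ) ^ (2 * (B : ℝ) + 2) = 2 ^ (B + 1) * 2 ^ (B + 1) := by
      rw [← pow_add, ← Real.rpow_natCast]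
      congr 1
      push_cast
      ring
    rw [Real.rpow_natCast, h2, hW]
    push_cast at h1
    refine h1.trans (le_of_eq ?_)
    ring
  have hB' : (B : ℝ) ≤ (z : ℝ) + Fintype.card J * (D * k) + S := by exact_mod_cast hB
  set T : ℝ := (z : ℝ) + Fintype.card J * (D * k) + S with hTd
  have hB0 : (0 : ℝ) ≤ B := Nat.cast_nonneg _
  set q : ℝ := |((m.primeFactors.card : ℕ) : ℝ) - ((n.primeFactors.card : ℕ) : ℝ)| with hq
  have hA1r : (A1 : ℝ) ≤ B := by exact_mod_cast hA1'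
  have hA2r : (A2 : ℝ) ≤ B := by exact_mod_cast hA2'
  have hA10 : (0 : ℝ) ≤ A1 := Nat.cast_nonneg _
  have hA20 : (0 : ℝ) ≤ A2 := Nat.cast_nonneg _
  have hqq : q - T ≤ |dl a b| := by
    rw [hq, hdl]
    have h1 := abs_sub_abs_le_abs_sub
      (((m.primeFactors.card : ℕ) : ℝ) - ((n.primeFactors.card : ℕ) : ℝ)) ((A2 : ℝ) - A1)
    have h2 : (((m.primeFactors.card : ℕ) : ℝ) - ((n.primeFactors.card : ℕ) : ℝ)) -
        ((A2 : ℝ) - A1) = ((m.primeFactors.card : ℕ) : ℝ) + A1 -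
          (((n.primeFactors.card : ℕ) : ℝ) + A2) := by ring
    rw [h2] at h1
    have h3 : |(A2 : ℝ) - A1| ≤ T := abs_le.2 ⟨by linarith, by linarith⟩
    linarith
  have hfac : (64 : ℝ) ^ (z + 2) * (64 ^ (D * Fintype.card J)) ^ k * 64 ^ S =
      (2 : ℝ) ^ (6 * T + 12) := by
    have h1 : (64 : ℝ) ^ (z + 2) * (64 ^ (D * Fintype.card J)) ^ k * 64 ^ S =
        (2 : ℝ) ^ (6 * (z + Fintype.card J * (D * k) + S) + 12) := by
      rw [show (64 : ℝ) = 2 ^ 6 from by norm_num, ← pow_mul, ← pow_mul, ← pow_mul, ← pow_mul,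
        ← pow_add, ← pow_add]
      congr 1
      ring
    rw [h1, ← Real.rpow_natCast, hTd]
    congr 1
    push_cast
    ring
  rw [hfac, sub_eq_add_neg, Real.rpow_add (by norm_num), mul_div_assoc',
    le_div_iff₀ (by positivity)]
  have hT0 : 0 ≤ T := hB0.trans hB'
  calc (2 : ℝ) ^ (R : ℝ) * 2 ^ (-|dl a b|) * 2 ^ q = (2 : ℝ) ^ (R : ℝ) * 2 ^ (q - |dl a b|) := by
        rw [mul_assoc, ← Real.rpow_add (by norm_num)]
        congr 2
        ring
    _ ≤ ((2 : ℝ) ^ (2 * (B : ℝ) + 2) * W) * 2 ^ T := by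
        refine mul_le_mul hd' ?_ (by positivity) (by positivity)
        exact Real.rpow_le_rpow_of_exponent_le (by norm_num) (by linarith)
    _ = (2 : ℝ) ^ (2 * (B : ℝ) + 2 + T) * W := by
        rw [Real.rpow_add (by norm_num) _ T]
        ring
    _ ≤ (2 : ℝ) ^ (6 * T + 12) * W := by
        refine mul_le_mul_of_nonneg_right ?_ hW0
        exact Real.rpow_le_rpow_of_exponent_le (by norm_num) (by linarith)

end Pool.Agent.L7h69.EA
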