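import Mathlib
import Pool.Agent.L7h19.EA.Stm3
import Pool.Agent.L7h69.EA.Rke

/-! Project EA: if no prime is unbalanced then `dl` is small, `S_DLB`. -/

set_option autoImplicit false
set_option linter.unusedSectionVars false

namespace Pool.Agent.L7h69.EA

open Finset Polynomial Pool.Agent.W262.RK Pool.Agent.W307.RT Pool.Agent.L7h19.RP
open Pool.Agent.L7h19.IS Pool.Agent.L7h19.IT Pool.Agent.L7h19.EA

/-- two filters which agree on `P` -/
lemma two_filters (Q P : Finset ℕ) (f g : ℕ → Prop) [DecidablePred f] [DecidablePred g]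
    (h : ∀ p ∈ P, (f p ↔ g p)) :
    |((Q.filter f).card : ℝ) - ((Q.filter g).card : ℝ)| ≤ ((Q.filter (fun p => p ∉ P)).card : ℝ) := by
  have e1 := card_filter_add_card_filter_not (s := Q.filter f) (fun p => p ∈ P)
  have e2 := card_filter_add_card_filter_not (s := Q.filter g) (fun p => p ∈ P)
  have e3 : (Q.filter f).filter (fun p => p ∈ P) = (Q.filter g).filter (fun p => p ∈ P) := by
    ext p
    rw [mem_filter, mem_filter, mem_filter, mem_filter]
    constructor
    · rintro ⟨⟨h1, h2⟩, h3⟩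
      exact ⟨⟨h1, (h p h3).1 h2⟩, h3⟩
    · rintro ⟨⟨h1, h2⟩, h3⟩
      exact ⟨⟨h1, (h p h3).2 h2⟩, h3⟩
  have l1 : ((Q.filter f).filter (fun p => ¬ p ∈ P)).card ≤ (Q.filter (fun p => p ∉ P)).card := by
    apply card_le_card
    intro p hp
    rw [mem_filter, mem_filter] at hp
    exact mem_filter.2 ⟨hp.1.1, hp.2⟩
  have l2 : ((Q.filter g).filter (fun p => ¬ p ∈ P)).card ≤ (Q.filter (fun p => p ∉ P)).card := by
    apply card_le_card
    intro p hp
    rw [mem_filter, mem_filter] at hp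
    exact mem_filter.2 ⟨hp.1.1, hp.2⟩
  rw [e3] at e1
  have e1r : ((((Q.filter g).filter (fun p => p ∈ P)).card : ℕ) : ℝ) +
      (((Q.filter f).filter (fun p => ¬ p ∈ P)).card : ℕ) = ((Q.filter f).card : ℕ) := by
    exact_mod_cast e1
  have e2r : ((((Q.filter g).filter (fun p => p ∈ P)).card : ℕ) : ℝ) +
      (((Q.filter g).filter (fun p => ¬ p ∈ P)).card : ℕ) = ((Q.filter g).card : ℕ) := by
    exact_mod_cast e2
  have l1r : ((((Q.filter f).filter (fun p => ¬ p ∈ P)).card : ℕ) : ℝ) ≤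
      ((Q.filter (fun p => p ∉ P)).card : ℕ) := by exact_mod_cast l1
  have l2r : ((((Q.filter g).filter (fun p => ¬ p ∈ P)).card : ℕ) : ℝ) ≤
      ((Q.filter (fun p => p ∉ P)).card : ℕ) := by exact_mod_cast l2
  have n1 : (0 : ℝ) ≤ (((Q.filter f).filter (fun p => ¬ p ∈ P)).card : ℕ) := Nat.cast_nonneg _
  have n2 : (0 : ℝ) ≤ (((Q.filter g).filter (fun p => ¬ p ∈ P)).card : ℕ) := Nat.cast_nonneg _
  rw [abs_le]
  constructor <;> linarith

theorem s_DLB : S_DLB := by
  intro J _ _ a b x z y X k D hz2 hG hb0 hc0 hprim hb hX hy hk heq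
  classical
  have hB := bad (M := b * (a ^ 2 - 4 * b)) (y := y) hG hprim hy hb hk
  have h1 := two_filters (b * (a ^ 2 - 4 * b)).natAbs.primeFactors (PP z y x)
    (fun p => OddAt p a b) (fun p => OddAt p (-2 * a) (a ^ 2 - 4 * b)) (fun p hp => by
      obtain ⟨hpp, j, hj⟩ := mem_PP.1 hp
      exact heq j p hpp hj)
  unfold dl
  refine (le_of_eq ?_).trans (h1.trans ?_)
  · congr
  · have h2 : ((((b * (a ^ 2 - 4 * b)).natAbs.primeFactors.filter
        (fun q => q ∉ PP z y x)).card : ℕ) : ℝ) ≤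
        ((z + Fintype.card J * (D * k) + ∑ j, (S2 z y x j).primeFactors.card : ℕ) : ℝ) := by
      exact_mod_cast hB
    refine h2.trans ?_
    have h3 : z + Fintype.card J * (D * k) + ∑ j, (S2 z y x j).primeFactors.card ≤
        (z + 2) + D * Fintype.card J * k + ∑ j, (S2 z y x j).primeFactors.card := by
      have : Fintype.card J * (D * k) = D * Fintype.card J * k := by ring
      omega
    exact_mod_cast h3

end Pool.Agent.L7h69.EA
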