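import Mathlib
import Pool.Agent.L7h19.EA.Stm
import Pool.Agent.L7h56.IT.DesD
import Pool.Agent.L7h56.IT.DesE

/-! Project EA: the class of a rational point from the local data. -/

set_option autoImplicit false

namespace Pool.Agent.L7h69.EA

open WeierstrassCurve WeierstrassCurve.Affine Pool.Agent.V11306.CM Pool.Agent.L7h19.IS
open Pool.Agent.L7h19.IT Pool.Agent.L7h56.IS Pool.Agent.L7h19.EA

section loc

variable {p : ℕ} [hp : Fact p.Prime]

lemma norm_unit {n : ℤ} (hn : ¬ (p : ℤ) ∣ n) : ‖((n : ℤ) : ℚ_[p])‖ = 1 := by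
  have h2 : ¬ ‖((n : ℤ) : ℚ_[p])‖ < 1 := by
    rw [Padic.norm_intCast_lt_one_iff]
    exact hn
  exact le_antisymm (Padic.norm_int_le_one n) (not_lt.1 h2)

/-- an integer that is a square in the `p`-adic numbers has symbol one -/
lemma jac_of_sq {n : ℤ} (hn : ¬ (p : ℤ) ∣ n) (h : IsSquare ((n : ℤ) : ℚ_[p])) :
    jacobiSym n p = 1 := by
  obtain ⟨z, hz⟩ := h
  have h1 := norm_unit (p := p) hn
  have h3 : ‖z‖ = 1 := by
    rw [hz, norm_mul] at h1
    nlinarith [norm_nonneg z]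
  let w : ℤ_[p] := ⟨z, h3.le⟩
  have h4 : (n : ℤ_[p]) = w * w := by
    apply Subtype.ext
    rw [PadicInt.coe_mul]
    push_cast
    exact hz
  have h5 : ((n : ℤ) : ZMod p) = PadicInt.toZMod w * PadicInt.toZMod w := by
    rw [← map_mul, ← h4, map_intCast]
  rw [← jacobiSym.legendreSym.to_jacobiSym]
  have h6 : ((n : ℤ) : ZMod p) ≠ 0 := by
    intro h
    exact hn ((ZMod.intCast_zmod_eq_zero_iff_dvd n p).1 h)
  rw [legendreSym.eq_one_iff p h6]
  exact ⟨_, h5⟩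

/-- conversely (Hensel) -/
lemma sq_of_jac (hp2 : p ≠ 2) {n : ℤ} (hn : ¬ (p : ℤ) ∣ n) (h : jacobiSym n p = 1) :
    IsSquare ((n : ℤ) : ℚ_[p]) := by
  rw [← jacobiSym.legendreSym.to_jacobiSym] at h
  have h6 : ((n : ℤ) : ZMod p) ≠ 0 := by
    intro h
    exact hn ((ZMod.intCast_zmod_eq_zero_iff_dvd n p).1 h)
  rw [legendreSym.eq_one_iff p h6] at h
  obtain ⟨r, hr⟩ := h
  obtain ⟨m, rfl⟩ := ZMod.intCast_surjective r
  have hdiv : (p : ℤ) ∣ n - m * m := by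
    rw [← ZMod.intCast_zmod_eq_zero_iff_dvd]
    push_cast
    rw [hr, sub_self]
  have hm : ¬ (p : ℤ) ∣ m := by
    intro hm
    apply hn
    have : n = (n - m * m) + m * m := by ring
    rw [this]
    exact dvd_add hdiv (hm.mul_right _)
  have hm1 := norm_unit (p := p) hm
  have hm0 : ((m : ℤ) : ℚ_[p]) ≠ 0 := by
    intro h0
    rw [h0, norm_zero] at hm1
    exact zero_ne_one hm1
  have hs : IsSquare (1 + (((n - m * m : ℤ) : ℚ_[p]) / ((m : ℤ) : ℚ_[p]) ^ 2)) := by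
    apply Pool.Agent.W22.RK.isSquare_one_add hp2
    rw [norm_div, norm_pow, hm1, one_pow, div_one, Padic.norm_intCast_lt_one_iff]
    exact hdiv
  obtain ⟨z, hz⟩ := hs
  refine ⟨(m : ℤ) * z, ?_⟩
  have e1 : ((n : ℤ) : ℚ_[p]) = ((m : ℤ) : ℚ_[p]) ^ 2 *
      (1 + (((n - m * m : ℤ) : ℚ_[p]) / ((m : ℤ) : ℚ_[p]) ^ 2)) := by
    push_cast
    field_simp
    ring
  rw [e1, hz]
  ring

lemma val_int {d : ℤ} (h : ¬ (p : ℤ) ∣ d) : ((d : ℚ_[p])).valuation = 0 := by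
  rw [Padic.valuation_intCast, padicValInt.eq_zero_of_not_dvd h]
  rfl

lemma even_of_sq {x : ℚ_[p]} (hx : x ≠ 0) (h : IsSquare x) : Even x.valuation := by
  obtain ⟨c, rfl⟩ := h
  have hc : c ≠ 0 := left_ne_zero_of_mul hx
  rw [Padic.valuation_mul hc hc]
  exact ⟨_, rfl⟩

lemma sq_cancel {x y : ℚ_[p]} (hx : x ≠ 0) (h : IsSquare (x * y)) (hx2 : IsSquare x) :
    IsSquare y := by
  obtain ⟨r, hr⟩ := h
  obtain ⟨s, hs⟩ := hx2
  have hs0 : s ≠ 0 := by
    rintro rfl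
    exact hx (by rw [hs, mul_zero])
  refine ⟨r / s, ?_⟩
  field_simp
  rw [hs] at hr
  linear_combination hr

/-- the local conditions on the class -/
lemma cond {a b : ℤ} {c r s : Bool} (hp2 : p ≠ 2) (hL : L1 p a b c r s) {d : ℤ} (hd : Squarefree d)
    {x : ℚ_[p]} (hx : Pt p a b x) (hdx : IsSquare ((d : ℚ_[p]) * x)) :
    ((p : ℤ) ∣ d → c = true) ∧ (r = true → ¬ (p : ℤ) ∣ d → jacobiSym d p = 1) ∧
      (r = true → (p : ℤ) ∣ d → (jacobiSym (d / p) p = 1 ↔ s = false)) ∧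
      ((p : ℤ) ∣ d → ¬ (p : ℤ) ∣ d / p) := by
  obtain ⟨hL1, hL2, hL3⟩ := hL
  have hx0 := hx.1
  have hd0 : d ≠ 0 := hd.ne_zero
  have hdq : (d : ℚ_[p]) ≠ 0 := by exact_mod_cast hd0
  have hpq : (p : ℚ_[p]) ≠ 0 := by exact_mod_cast hp.out.ne_zero
  have hp0 : (p : ℤ) ≠ 0 := by exact_mod_cast hp.out.ne_zero
  have hev := even_of_sq (mul_ne_zero hdq hx0) hdx
  rw [Padic.valuation_mul hdq hx0] at hev
  have hpi : Prime (p : ℤ) := Nat.prime_iff_prime_int.mp hp.out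
  have hnd : (p : ℤ) ∣ d → ¬ (p : ℤ) ∣ d / p := by
    rintro ⟨k, hk⟩ h2
    rw [hk, Int.mul_ediv_cancel_left _ hp0] at h2
    obtain ⟨l, hl⟩ := h2
    have h3 : (p : ℤ) * p ∣ d := ⟨l, by rw [hk, hl]; ring⟩
    exact hpi.not_isUnit (hd _ h3)
  have hodd : (p : ℤ) ∣ d → Odd x.valuation := by
    intro h
    obtain ⟨k, hk⟩ := h
    have hk' : ¬ (p : ℤ) ∣ k := by
      have := hnd ⟨k, hk⟩
      rwa [hk, Int.mul_ediv_cancel_left _ hp0] at this
    have hk0 : (k : ℚ_[p]) ≠ 0 := by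
      intro h0
      apply hk'
      have : k = 0 := by exact_mod_cast h0
      rw [this]
      exact dvd_zero _
    have hv : ((d : ℚ_[p])).valuation = 1 := by
      rw [hk]
      push_cast
      rw [Padic.valuation_mul hpq hk0, val_int hk', Padic.valuation_p, add_zero]
    rw [hv] at hev
    rcases Int.even_or_odd x.valuation with h | h
    · exfalso
      rcases h with ⟨u, hu⟩
      rcases hev with ⟨v, hv⟩
      omega
    · exact h
  refine ⟨fun h => hL1.1 ⟨hp, x, hx, hodd h⟩, fun hr h => ?_, fun hr h => ?_, hnd⟩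
  · have hv : Even x.valuation := by
      rw [val_int h, zero_add] at hev
      exact hev
    have hxs := hL2 x hx hv hr
    apply jac_of_sq h
    apply sq_cancel hx0 _ hxs
    rw [mul_comm]
    exact hdx
  · have hc : c = true := hL1.1 ⟨hp, x, hx, hodd h⟩
    have h3 := hL3 x hx (hodd h) hr hc
    have hn := hnd h
    rw [← h3]
    obtain ⟨k, hk⟩ := h
    rw [hk, Int.mul_ediv_cancel_left _ hp0] at hn ⊢
    have hk0 : (k : ℚ_[p]) ≠ 0 := by
      intro h0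
      apply hn
      have : k = 0 := by exact_mod_cast h0
      rw [this]
      exact dvd_zero _
    have hkx : IsSquare ((k : ℚ_[p]) * (x * p)) := by
      have : (k : ℚ_[p]) * (x * p) = (d : ℚ_[p]) * x := by
        rw [hk]
        push_cast
        ring
      rw [this]
      exact hdx
    constructor
    · intro h4
      exact sq_cancel hk0 hkx (sq_of_jac hp2 hn h4)
    · intro h4
      apply jac_of_sq hn
      apply sq_cancel (mul_ne_zero hx0 hpq) _ h4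
      rw [mul_comm]
      exact hkx

/-- the point in `ℚ_p` -/
lemma exists_pt (hT : S_TOR) (a b : ℤ) (hb : b ≠ 0) (hp2 : p ≠ 2) (d : ℤ)
    (P : (E (a : ℚ) (b : ℚ)).Point) (hP : P ≠ 0) (h : IsSquare ((d : ℚ) * fx (a : ℚ) (b : ℚ) P)) :
    ∃ x : ℚ_[p], Pt p a b x ∧ IsSquare ((d : ℚ_[p]) * x) := by
  rcases P with _ | ⟨x, y, hns⟩
  · exact absurd rfl hP
  by_cases hx : x = 0
  · rw [fx_x0 hns hx] at h
    obtain ⟨k, hk⟩ := hT p a b hp2 hb
    refine ⟨_, hk, ?_⟩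
    obtain ⟨r, hr⟩ := h
    refine ⟨(r : ℚ_[p]) * (p : ℚ_[p]) ^ k, ?_⟩
    have h1 : ((d : ℚ_[p])) * (b : ℚ_[p]) = (r : ℚ_[p]) * r := by exact_mod_cast congrArg (fun z : ℚ => (z : ℚ_[p])) hr
    rw [← mul_assoc, h1]
    ring
  · rw [fx_x hns hx] at h
    have he := (E_eq (a : ℚ) (b : ℚ) x y).mp hns.1
    refine ⟨(x : ℚ_[p]), ⟨by exact_mod_cast hx, (y : ℚ_[p]), ?_⟩, ?_⟩
    · have h1 := congrArg (fun z : ℚ => (z : ℚ_[p])) he
      push_cast at h1
      linear_combination h1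
    · obtain ⟨r, hr⟩ := h
      refine ⟨(r : ℚ_[p]), ?_⟩
      exact_mod_cast congrArg (fun z : ℚ => (z : ℚ_[p])) hr

end loc

end Pool.Agent.L7h69.EA
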