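import Mathlib
import Pool.Agent.L7h56.IS.Des
import Pool.Agent.L7h69.EA.Loc

/-! Project EA: descent by two-isogenies from local data, `S_DSE`. -/

set_option autoImplicit false

namespace Pool.Agent.L7h69.EA

open WeierstrassCurve WeierstrassCurve.Affine Pool.Agent.V11306.CM Pool.Agent.L7h19.IS
open Pool.Agent.L7h19.IT Pool.Agent.L7h56.IS Pool.Agent.L7h56.IT Pool.Agent.L7h19.EA

/-! ### the products -/

lemma pd_dvd {P : Finset ℕ} {c : ℕ → Bool} (hP : ∀ p ∈ P, p.Prime) {q : ℕ} (hq : q.Prime) :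
    q ∣ pd P c ↔ q ∈ P ∧ c q = true := by
  unfold pd
  constructor
  · intro h
    obtain ⟨p, hp, hqp⟩ := (hq.prime.dvd_finsetProd_iff _).1 h
    rw [Finset.mem_filter] at hp
    have := (Nat.prime_dvd_prime_iff_eq hq (hP p hp.1)).1 hqp
    rw [this]
    exact hp
  · intro h
    exact Finset.dvd_prod_of_mem (fun p => p) (Finset.mem_filter.2 h)

lemma pd_sqf {P : Finset ℕ} {c : ℕ → Bool} (hP : ∀ p ∈ P, p.Prime) : Squarefree (pd P c) := by
  unfold pd
  refine Finset.squarefree_prod_of_pairwise_isCoprime (fun i hi j hj hij => ?_) fun i hi => ?_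
  · rw [Finset.mem_coe, Finset.mem_filter] at hi hj
    exact Nat.coprime_iff_isRelPrime.1 ((Nat.coprime_primes (hP i hi.1) (hP j hj.1)).2 hij)
  · rw [Finset.mem_filter] at hi
    exact (hP i hi.1).prime.squarefree

/-- the conditions on the classes -/
def CC (P : Finset ℕ) (cl rw' : ℕ → Bool) (ε : ℕ → ℤ) (d : ℤ) : Prop :=
  ∀ p ∈ P, ((p : ℤ) ∣ d → cl p = true) ∧ (rw' p = true → ¬ (p : ℤ) ∣ d → jacobiSym d p = 1) ∧
    (rw' p = true → (p : ℤ) ∣ d → jacobiSym (d / p) p = ε p)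

lemma conds (hT : S_TOR) (a b : ℤ) (P : Finset ℕ) (cl rw' sg : ℕ → Bool) (ε : ℕ → ℤ) (hb : b ≠ 0)
    (hL : ∀ p ∈ P, p ≠ 2 ∧ ∃ _ : Fact p.Prime, L1 p a b (cl p) (rw' p) (sg p))
    (hε : ∀ p ∈ P, ε p = if sg p = true then -1 else 1) (Q : (E (a : ℚ) (b : ℚ)).Point) (d : ℤ)
    (hd : Squarefree d) (h : IsSquare ((d : ℚ) * fx (a : ℚ) (b : ℚ) Q)) : CC P cl rw' ε d := by
  intro p hp
  obtain ⟨hp2, hfp, hL1⟩ := hL p hp
  have hpi : Prime (p : ℤ) := Nat.prime_iff_prime_int.mp hfp.out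
  by_cases hQ : Q = 0
  · rw [hQ, fx_zero, mul_one, Rat.isSquare_intCast_iff] at h
    obtain ⟨r, hr⟩ := h
    have hu : IsUnit r := hd r ⟨1, by rw [hr]; ring⟩
    have hd1 : d = 1 := by
      rcases Int.isUnit_iff.1 hu with h1 | h1 <;> rw [hr, h1] <;> norm_num
    have hnd : ¬ (p : ℤ) ∣ d := by
      rw [hd1]
      intro h1
      exact hpi.not_isUnit (isUnit_of_dvd_one h1)
    refine ⟨fun h1 => absurd h1 hnd, fun _ _ => ?_, fun _ h1 => absurd h1 hnd⟩
    rw [hd1]
    exact jacobiSym.one_left p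
  · obtain ⟨x, hx, hdx⟩ := exists_pt (p := p) hT a b hb hp2 d Q hQ h
    obtain ⟨h1, h2, h3, h4⟩ := cond hp2 hL1 hd hx hdx
    refine ⟨h1, h2, fun hr hpd => ?_⟩
    have h5 := h3 hr hpd
    have h6 := h4 hpd
    rw [hε p hp]
    have hjac : jacobiSym (d / p) p = 1 ∨ jacobiSym (d / p) p = -1 := by
      apply jacobiSym.eq_one_or_neg_one
      rw [Int.gcd_comm]
      exact Int.isCoprime_iff_gcd_eq_one.1 ((Prime.coprime_iff_not_dvd hpi).2 h6)
    rcases Bool.eq_false_or_eq_true (sg p) with hs | hs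
    · rw [if_pos hs]
      rcases hjac with h7 | h7
      · rw [h5.1 h7] at hs
        exact absurd hs (by decide)
      · exact h7
    · rw [if_neg (by rw [hs]; decide)]
      exact h5.2 hs

/-- the number of classes -/
lemma count (b : ℤ) (P : Finset ℕ) (cl rw' : ℕ → Bool) (ε : ℕ → ℤ) (hb : b ≠ 0)
    (hP : ∀ p ∈ P, p.Prime) (hε1 : ∀ p ∈ P, ε p * ε p = 1) :
    ∃ S : Finset ℤ, (∀ d : ℤ, Squarefree d → d ∣ b → CC P cl rw' ε d → d ∈ S) ∧
      S.card ≤ 2 ^ ((b.natAbs.primeFactors.filter (fun p => p ∉ P)).card + 1) *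
        N3 ε (pd P cl) (pd P rw') := by
  classical
  set m := pd P cl with hmdef
  set n := pd P rw' with hndef
  have hm : Squarefree m := pd_sqf hP
  set W := b.natAbs.primeFactors.filter (fun p => p ∉ P) with hW
  set I : Finset ℤ := Finset.Icc (-(b.natAbs : ℤ)) b.natAbs with hI
  set S : Finset ℤ := I.filter (fun d => Squarefree d ∧ d ∣ b ∧ CC P cl rw' ε d) with hS
  refine ⟨S, ?_, ?_⟩
  · intro d h1 h2 h3
    rw [hS, Finset.mem_filter, hI, Finset.mem_Icc]
    have h4 : d.natAbs ≤ b.natAbs :=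
      Nat.le_of_dvd (Int.natAbs_pos.mpr hb) (Int.natAbs_dvd_natAbs.mpr h2)
    refine ⟨⟨?_, ?_⟩, h1, h2, h3⟩ <;> omega
  · -- the map to (sign, primes which do not divide m)
    let f : ℤ → Bool × Finset ℕ :=
      fun d => (decide (0 < d), d.natAbs.primeFactors.filter (fun p => ¬ p ∣ m))
    have himg : S.image f ⊆ (Finset.univ : Finset Bool) ×ˢ W.powerset := by
      intro z hz
      obtain ⟨d, hd, rfl⟩ := Finset.mem_image.mp hz
      obtain ⟨_, h1, h2, h3⟩ := Finset.mem_filter.mp hd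
      rw [Finset.mem_product, Finset.mem_powerset]
      refine ⟨Finset.mem_univ _, ?_⟩
      intro q hq
      obtain ⟨hq1, hq2⟩ := Finset.mem_filter.mp hq
      have hqp := Nat.prime_of_mem_primeFactors hq1
      have hqd := Nat.dvd_of_mem_primeFactors hq1
      rw [hW, Finset.mem_filter, Nat.mem_primeFactors]
      refine ⟨⟨hqp, hqd.trans (Int.natAbs_dvd_natAbs.mpr h2), Int.natAbs_ne_zero.2 hb⟩, fun hqP => ?_⟩
      apply hq2
      exact (pd_dvd hP hqp).2 ⟨hqP, (h3 q hqP).1 (Int.natCast_dvd.2 hqd)⟩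
    have hcard : (S.image f).card ≤ 2 ^ (W.card + 1) := by
      refine (Finset.card_le_card himg).trans ?_
      rw [Finset.card_product, Finset.card_powerset, Finset.card_univ, Fintype.card_bool, pow_succ]
      omega
    have hfib : ∀ z ∈ S.image f, (S.filter (fun d => f d = z)).card ≤ N3 ε m n := by
      rintro ⟨σ, T⟩ hz
      set g : ℤ := (if σ then 1 else -1) * ((∏ q ∈ T, q : ℕ) : ℤ) with hg
      -- decomposition
      have hdec : ∀ d ∈ S.filter (fun d => f d = (σ, T)),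
          d = g * ((∏ q ∈ d.natAbs.primeFactors.filter (fun p => p ∣ m), q : ℕ) : ℤ) := by
        intro d hd
        obtain ⟨hd1, hd2⟩ := Finset.mem_filter.mp hd
        obtain ⟨_, h1, h2, h3⟩ := Finset.mem_filter.mp hd1
        have e1 : decide (0 < d) = σ := (Prod.ext_iff.mp hd2).1
        have e2 : d.natAbs.primeFactors.filter (fun p => ¬ p ∣ m) = T := (Prod.ext_iff.mp hd2).2
        have hsf : Squarefree d.natAbs := Int.squarefree_natAbs.mpr h1
        have e3 : (∏ q ∈ T, q) * (∏ q ∈ d.natAbs.primeFactors.filter (fun p => p ∣ m), q) =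
            d.natAbs := by
          rw [← e2, mul_comm, Finset.prod_filter_mul_prod_filter_not]
          exact prod_pf hsf
        have e4 : d = (if σ then 1 else -1) * (d.natAbs : ℤ) := by
          rw [← e1]
          by_cases h0 : 0 < d
          · simp only [h0, decide_true, if_true]; omega
          · simp only [h0, decide_false, Bool.false_eq_true, if_false]; omega
        rw [hg, mul_assoc, ← Nat.cast_mul, e3]
        exact e4
      have hinj : Set.InjOn (fun d : ℤ => d.natAbs.primeFactors.filter (fun p => p ∣ m))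
          (S.filter (fun d => f d = (σ, T)) : Finset ℤ) := by
        intro d hd d' hd' hh
        have hh' : d.natAbs.primeFactors.filter (fun p => p ∣ m) =
          d'.natAbs.primeFactors.filter (fun p => p ∣ m) := hh
        rw [hdec d hd, hdec d' hd', hh']
      rw [← Finset.card_image_of_injOn hinj]
      apply card_fib3 ε m n hm (fun p hp hpm _ => hε1 p ((pd_dvd hP hp).1 hpm).1)
        (fun p => jacobiSym g p)
      · intro A hA
        obtain ⟨d, hd, rfl⟩ := Finset.mem_image.mp hA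
        intro q hq
        obtain ⟨hq1, hq2⟩ := Finset.mem_filter.mp hq
        exact Nat.mem_primeFactors.mpr ⟨Nat.prime_of_mem_primeFactors hq1, hq2, hm.ne_zero⟩
      · intro A hA
        obtain ⟨d, hd, rfl⟩ := Finset.mem_image.mp hA
        intro p hp
        have hdd := hdec d hd
        obtain ⟨hd1, _⟩ := Finset.mem_filter.mp hd
        obtain ⟨_, h1, h2, h3⟩ := Finset.mem_filter.mp hd1
        have hp' := Nat.prime_of_mem_primeFactors hp
        obtain ⟨hpP, hpr⟩ := (pd_dvd hP hp').1 (Nat.dvd_of_mem_primeFactors hp)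
        obtain ⟨c1, c2, c3⟩ := h3 p hpP
        set A := d.natAbs.primeFactors.filter (fun p => p ∣ m) with hAdef
        show ∏ q ∈ A, lam ε p q = jacobiSym g p
        by_cases hpd : (p : ℤ) ∣ d
        · -- `p ∈ A`
          have hpA : p ∈ A := by
            rw [hAdef, Finset.mem_filter]
            refine ⟨Nat.mem_primeFactors.mpr ⟨hp', ?_, ?_⟩, (pd_dvd hP hp').2 ⟨hpP, c1 hpd⟩⟩
            · exact Int.natCast_dvd.mp hpd
            · exact Int.natAbs_ne_zero.mpr h1.ne_zero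
          have h5 := c3 hpr hpd
          set D : ℤ := ((∏ q ∈ A.erase p, q : ℕ) : ℤ) with hD
          have hAD : ((∏ q ∈ A, q : ℕ) : ℤ) = p * D := by
            have h6 := Finset.mul_prod_erase A (fun q => q) hpA
            rw [hD, ← Nat.cast_mul]
            exact congrArg _ h6.symm
          have hp0 : (p : ℤ) ≠ 0 := by exact_mod_cast hp'.ne_zero
          have hdp : d / p = g * D := by
            have : d = p * (g * D) := by rw [hdd, hAD]; ring
            rw [this, Int.mul_ediv_cancel_left _ hp0]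
          rw [← Finset.mul_prod_erase A _ hpA]
          have e1 : lam ε p p = ε p := by unfold lam; rw [if_pos rfl]
          have e2 : ∏ q ∈ A.erase p, lam ε p q = jacobiSym D p := by
            rw [hD, jac_prod]
            apply Finset.prod_congr rfl
            intro q hq
            unfold lam
            rw [if_neg (Finset.ne_of_mem_erase hq)]
          have e3 : jacobiSym D p * jacobiSym D p = 1 := by
            rw [hD, jac_prod, ← Finset.prod_mul_distrib]
            apply Finset.prod_eq_one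
            intro q hq
            apply jac_sq hp' _ (Finset.ne_of_mem_erase hq)
            exact Nat.prime_of_mem_primeFactors
              (Finset.mem_filter.mp (Finset.mem_of_mem_erase hq)).1
          rw [e1, e2, ← h5, hdp, jacobiSym.mul_left]
          linear_combination (jacobiSym g p) * e3
        · have h5 := c2 hpr hpd
          have h6 : p ∉ A := by
            intro h6
            apply hpd
            have := Nat.dvd_of_mem_primeFactors (Finset.mem_filter.mp h6).1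
            exact Int.natCast_dvd.mpr this
          have e1 : ∏ q ∈ A, lam ε p q = ∏ q ∈ A, jacobiSym (q : ℤ) p := by
            apply Finset.prod_congr rfl
            intro q hq
            unfold lam
            rw [if_neg]
            rintro rfl
            exact h6 hq
          rw [e1, ← jac_prod]
          rw [hdd, jacobiSym.mul_left] at h5
          exact eq_of_mul_one h5
    calc S.card ≤ N3 ε m n * (S.image f).card := Finset.card_le_mul_card_image S _ hfib
      _ ≤ N3 ε m n * 2 ^ (W.card + 1) := Nat.mul_le_mul_left _ hcard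
      _ = _ := mul_comm _ _

lemma exists_SE (hT : S_TOR) (a b : ℤ) (P : Finset ℕ) (cl rw' sg : ℕ → Bool) (ε : ℕ → ℤ)
    (hb : b ≠ 0) (hL : ∀ p ∈ P, p ≠ 2 ∧ ∃ _ : Fact p.Prime, L1 p a b (cl p) (rw' p) (sg p))
    (hε : ∀ p ∈ P, ε p = if sg p = true then -1 else 1) (α β : ℚ) (hα : α = a) (hβ : β = b) :
    ∃ (S : Finset ℤ) (cla : (E α β).Point → ℤ), (∀ Q, cla Q ∈ S ∧ Squarefree (cla Q) ∧
      IsSquare ((cla Q : ℚ) * fx α β Q)) ∧
      S.card ≤ 2 ^ ((b.natAbs.primeFactors.filter (fun p => p ∉ P)).card + 1) *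
        N3 ε (pd P cl) (pd P rw') := by
  subst hα hβ
  obtain ⟨S, hS, hSc⟩ := count b P cl rw' ε hb (fun p hp => (hL p hp).2.choose.out)
    (fun p hp => by rw [hε p hp]; split_ifs <;> norm_num)
  have H := fun Q => exists_cls3 a b hb Q
  choose cla h1 h2 h3 h4 h5 using H
  exact ⟨S, cla, fun Q => ⟨hS _ (h1 Q) (h2 Q)
    (conds hT a b P cl rw' sg ε hb hL hε Q _ (h1 Q) (h3 Q)), h1 Q, h3 Q⟩, hSc⟩

lemma filt_le {b M : ℤ} (P : Finset ℕ) (hM : M ≠ 0) (h : b ∣ M) :
    (b.natAbs.primeFactors.filter (fun p => p ∉ P)).card ≤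
      (M.natAbs.primeFactors.filter (fun p => p ∉ P)).card :=
  Finset.card_le_card (Finset.filter_subset_filter _
    (Nat.primeFactors_mono (Int.natAbs_dvd_natAbs.mpr h) (Int.natAbs_ne_zero.2 hM)))

theorem s_DSE (hT : S_TOR) : S_DSE := by
  intro a b P EE cl rw' hb hc hL
  classical
  have hbq : (b : ℚ) ≠ 0 := by exact_mod_cast hb
  have hcq : (a : ℚ) ^ 2 - 4 * b ≠ 0 := by exact_mod_cast hc
  have hΔ : (E (a : ℚ) (b : ℚ)).Δ ≠ 0 := by
    rw [E_delta]
    exact mul_ne_zero (mul_ne_zero (by norm_num) (pow_ne_zero 2 hbq)) hcq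
  have hΔ1 : (E (-2 * (a : ℚ)) ((a : ℚ) ^ 2 - 4 * b)).Δ ≠ 0 := by
    rw [E_delta]
    refine mul_ne_zero (mul_ne_zero (by norm_num) (pow_ne_zero 2 hcq)) ?_
    have : (-2 * (a : ℚ)) ^ 2 - 4 * ((a : ℚ) ^ 2 - 4 * b) = 16 * b := by ring
    rw [this]
    exact mul_ne_zero (by norm_num) hbq
  have hΔ2 : (E (-2 * (-2 * (a : ℚ))) ((-2 * (a : ℚ)) ^ 2 - 4 * ((a : ℚ) ^ 2 - 4 * b))).Δ ≠ 0 := by
    rw [E_delta]
    have e1 : (-2 * (a : ℚ)) ^ 2 - 4 * ((a : ℚ) ^ 2 - 4 * b) = 16 * b := by ring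
    have e2 : (-2 * (-2 * (a : ℚ))) ^ 2 - 4 * (16 * (b : ℚ)) = 16 * ((a : ℚ) ^ 2 - 4 * b) := by ring
    rw [e1, e2]
    exact mul_ne_zero (mul_ne_zero (by norm_num) (pow_ne_zero 2 (mul_ne_zero (by norm_num) hbq)))
      (mul_ne_zero (by norm_num) hcq)
  have v1 : (1 : ℚ) ^ 2 ≠ 0 := by norm_num
  have v2 : (1 / 2 : ℚ) ^ 2 ≠ 0 := by norm_num
  have w1 : (-2 * (a : ℚ)) = (1 : ℚ) ^ 2 * (-2 * a) := by ring
  have w2 : ((a : ℚ) ^ 2 - 4 * b) = ((1 : ℚ) ^ 2) ^ 2 * (a ^ 2 - 4 * b) := by ring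
  have w3 : (a : ℚ) = (1 / 2 : ℚ) ^ 2 * (-2 * (-2 * a)) := by ring
  have w4 : (b : ℚ) = ((1 / 2 : ℚ) ^ 2) ^ 2 * ((-2 * a) ^ 2 - 4 * (a ^ 2 - 4 * b)) := by ring
  have h20 : (2 : ℚ) ≠ 0 := two_ne_zero
  obtain ⟨S, α, hS, hSc⟩ := exists_SE hT a b P cl rw' (fun p => decide (p ∈ EE)) (eE EE) hb
    (fun p hp => ⟨(hL p hp).1, (hL p hp).2.choose, (hL p hp).2.choose_spec.1⟩)
    (fun p _ => by unfold eE; simp only [decide_eq_true_eq]) (a : ℚ) (b : ℚ) rfl rfl
  obtain ⟨S', α', hS', hSc'⟩ := exists_SE hT (-2 * a) (a ^ 2 - 4 * b) P rw' cl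
    (fun p => xor (decide (p ∈ EE)) (nm p)) (eE' EE) hc
    (fun p hp => ⟨(hL p hp).1, (hL p hp).2.choose, (hL p hp).2.choose_spec.2⟩)
    (fun p hp => by
      obtain ⟨hp2, hfp, _⟩ := hL p hp
      have hodd : p % 2 = 1 := by
        rcases hfp.out.eq_two_or_odd with h | h
        · exact absurd h hp2
        · exact h
      unfold eE' eE nm
      rw [jacobiSym.at_neg_one (Nat.odd_iff.2 hodd)]
      have h4 : p % 4 = 1 ∨ p % 4 = 3 := by omega
      rcases h4 with h4 | h4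
      · rw [ZMod.χ₄_nat_one_mod_four h4]
        by_cases h : p ∈ EE <;> simp [h, h4]
      · rw [ZMod.χ₄_nat_three_mod_four h4]
        by_cases h : p ∈ EE <;> simp [h, h4])
    (-2 * (a : ℚ)) ((a : ℚ) ^ 2 - 4 * b) (by push_cast; ring) (by push_cast; ring)
  have key := rank_le (E (a : ℚ) (b : ℚ)).Point (E (-2 * (a : ℚ)) ((a : ℚ) ^ 2 - 4 * b)).Point
    (Pool.Agent.Q286.EQ.mordell_weil ℚ (E (a : ℚ) (b : ℚ)) hΔ)
    (psi (u := 1 / 2) hcq hΔ2 v2 w3 w4 hΔ) (psi (u := 1) hbq hΔ1 v1 w1 w2 hΔ1)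
    (psi_psi h20 hbq hcq hΔ hΔ1 hΔ2 v1 v2 w1 w2 w3 w4) S S' α α' ?_ ?_ ?_ ?_
  · have hM : 2 * b * (a ^ 2 - 4 * b) ≠ 0 := mul_ne_zero (mul_ne_zero two_ne_zero hb) hc
    refine key.trans (Nat.mul_le_mul (hSc.trans (Nat.mul_le_mul_right _ ?_))
      (hSc'.trans (Nat.mul_le_mul_right _ ?_)))
    · exact Nat.pow_le_pow_right (by norm_num)
        (Nat.add_le_add_right (filt_le P hM ⟨2 * (a ^ 2 - 4 * b), by ring⟩) 1)
    · exact Nat.pow_le_pow_right (by norm_num)
        (Nat.add_le_add_right (filt_le P hM ⟨2 * b, by ring⟩) 1)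
  · exact fun Q => (hS Q).1
  · exact fun Q => (hS' Q).1
  · intro Q1 Q2 hPQ
    have h1 : IsSquare (fx (a : ℚ) (b : ℚ) Q1 * fx (a : ℚ) (b : ℚ) Q2) := by
      apply sq_mul_of (d := (α Q1 : ℚ)) (by exact_mod_cast (hS Q1).2.1.ne_zero) (hS Q1).2.2
      rw [hPQ]
      exact (hS Q2).2.2
    obtain ⟨R, hR⟩ := psi_ker hcq hΔ2 v2 w3 w4 hΔ h20 (Q1 - Q2) (fx_sub hbq Q1 Q2 h1)
    exact ⟨R, by rw [hR]; abel⟩
  · intro R R' hRR
    have h1 : IsSquare (fx (-2 * (a : ℚ)) ((a : ℚ) ^ 2 - 4 * b) R *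
        fx (-2 * (a : ℚ)) ((a : ℚ) ^ 2 - 4 * b) R') := by
      apply sq_mul_of (d := (α' R : ℚ)) (by exact_mod_cast (hS' R).2.1.ne_zero) (hS' R).2.2
      rw [hRR]
      exact (hS' R').2.2
    obtain ⟨T, hT⟩ := psi_ker hbq hΔ1 v1 w1 w2 hΔ1 h20 (R - R') (fx_sub hcq R R' h1)
    exact ⟨T, by rw [hT]; abel⟩

end Pool.Agent.L7h69.EA
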