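import Mathlib
import Pool.Agent.L7h19.EA.Stm3

/-! Project EA: quadratic twists, `S_TW`. -/

set_option autoImplicit false

namespace Pool.Agent.L7h69.EA

open Finset Polynomial Pool.Agent.L7h19.EA

lemma gcd_one {p : ℕ} [hp : Fact p.Prime] {d : ℤ} (hd : ¬ (p : ℤ) ∣ d) : d.gcd p = 1 := by
  have hpi : Prime (p : ℤ) := Nat.prime_iff_prime_int.mp hp.out
  rw [Int.gcd_comm]
  exact Int.isCoprime_iff_gcd_eq_one.1 ((Prime.coprime_iff_not_dvd hpi).2 hd)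

lemma jac_sq_mul {p : ℕ} [hp : Fact p.Prime] {d : ℤ} (hd : ¬ (p : ℤ) ∣ d) (n : ℤ) :
    jacobiSym (n * d ^ 2) p = jacobiSym n p := by
  rw [jacobiSym.mul_left, jacobiSym.sq_one' (gcd_one hd), mul_one]

/-- the columns of a twist of a curve with good reduction -/
lemma col (hS : S_SCL) (h3 : S_N3) (h6 : S_N6) (p : ℕ) [hp : Fact p.Prime] (hp2 : p ≠ 2)
    (A B d e : ℤ) (n : ℕ) (hB : ¬ (p : ℤ) ∣ B) (hC : ¬ (p : ℤ) ∣ A ^ 2 - 4 * B)
    (hde : d = (p : ℤ) ^ n * e) (he : ¬ (p : ℤ) ∣ e) :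
    OddAt p (A * d) (B * d ^ 2) ↔ Odd n ∧ jacobiSym (A ^ 2 - 4 * B) p = 1 := by
  have hpi : Prime (p : ℤ) := Nat.prime_iff_prime_int.mp hp.out
  have hp0 : (p : ℤ) ≠ 0 := hpi.ne_zero
  rcases Nat.even_or_odd' n with ⟨i, hi | hi⟩
  · have h := hS p (A * e) (B * e ^ 2) ((p : ℤ) ^ i) false false false (pow_ne_zero _ hp0)
      (h3 p (A * e) (B * e ^ 2) false hp2
        (fun h => (hpi.dvd_or_dvd h).elim hB (fun h => he (hpi.dvd_of_dvd_pow h)))
        (fun h => by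
          have e1 : (A * e) ^ 2 - 4 * (B * e ^ 2) = (A ^ 2 - 4 * B) * e ^ 2 := by ring
          rw [e1] at h
          exact (hpi.dvd_or_dvd h).elim hC (fun h => he (hpi.dvd_of_dvd_pow h))))
    have e1 : ((p : ℤ) ^ i) ^ 2 * (A * e) = A * d := by
      rw [hde, hi, ← pow_mul, mul_comm i 2]
      ring
    have e2 : ((p : ℤ) ^ i) ^ 4 * (B * e ^ 2) = B * d ^ 2 := by
      rw [hde, hi, mul_pow, ← pow_mul, ← pow_mul, show 2 * i * 2 = i * 4 by ring]
      ring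
    rw [e1, e2] at h
    rw [h.1]
    constructor
    · intro h1
      exact absurd h1 (by decide)
    · rintro ⟨h1, _⟩
      exfalso
      rw [hi] at h1
      exact (Nat.not_odd_iff_even.2 (even_two_mul i)) h1
  · have d3 : ∀ m : ℤ, ¬ (p : ℤ) ∣ m → ¬ (p : ℤ) ^ 3 ∣ (p : ℤ) ^ 2 * m := by
      intro m hm h
      apply hm
      rw [pow_succ] at h
      exact (mul_dvd_mul_iff_left (pow_ne_zero 2 hp0)).1 h
    have hb : B * ((p : ℤ) * e) ^ 2 = (p : ℤ) ^ 2 * (B * e ^ 2) := by ring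
    have hc : (A * ((p : ℤ) * e)) ^ 2 - 4 * (B * ((p : ℤ) * e) ^ 2) =
        (p : ℤ) ^ 2 * ((A ^ 2 - 4 * B) * e ^ 2) := by ring
    have h := hS p (A * (p * e)) (B * (p * e) ^ 2) ((p : ℤ) ^ i) _ _ _ (pow_ne_zero _ hp0)
      (h6 p (A * (p * e)) (B * (p * e) ^ 2) hp2 ⟨A * e, by ring⟩ ⟨B * e ^ 2, hb⟩
        (by
          rw [hb]
          exact d3 _ fun h => (hpi.dvd_or_dvd h).elim hB (fun h => he (hpi.dvd_of_dvd_pow h)))
        (by
          rw [hc]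
          exact d3 _ fun h => (hpi.dvd_or_dvd h).elim hC (fun h => he (hpi.dvd_of_dvd_pow h))))
    have e0 : d = ((p : ℤ) ^ i) ^ 2 * (p * e) := by
      rw [hde, hi, pow_succ, ← pow_mul, mul_comm i 2]
      ring
    have e1 : ((p : ℤ) ^ i) ^ 2 * (A * (p * e)) = A * d := by
      rw [e0]
      ring
    have e2 : ((p : ℤ) ^ i) ^ 4 * (B * (p * e) ^ 2) = B * d ^ 2 := by
      rw [e0]
      ring
    rw [e1, e2] at h
    rw [h.1, hc, Int.mul_ediv_cancel_left _ (pow_ne_zero 2 hp0)]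
    unfold Pool.Agent.L7h19.EA.sq
    rw [decide_eq_true_iff, jac_sq_mul he]
    constructor
    · intro h1
      exact ⟨by rw [hi]; exact odd_two_mul_add_one i, h1⟩
    · exact fun h1 => h1.2

theorem s_TW (hS : S_SCL) (h3 : S_N3) (h6 : S_N6) : S_TW := by
  intro A B D f hBC hsq hD _ _
  refine ⟨2 + (B * (A ^ 2 - 4 * B)).natAbs, ?_⟩
  intro p hp t hpz _ _ hne
  have hpi : Prime (p : ℤ) := Nat.prime_iff_prime_int.mp hp.out
  have hp2 : p ≠ 2 := by omega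
  have hnd : ¬ (p : ℤ) ∣ B * (A ^ 2 - 4 * B) := by
    intro h
    have h1 := Nat.le_of_dvd (Int.natAbs_pos.2 hBC) (Int.natCast_dvd.1 h)
    omega
  have hB : ¬ (p : ℤ) ∣ B := fun h => hnd (h.mul_right _)
  have hC : ¬ (p : ℤ) ∣ A ^ 2 - 4 * B := fun h => hnd (h.mul_left _)
  have h2n : ¬ (p : ℤ) ∣ 4 := by
    intro h
    have h1 : (p : ℤ) ∣ 2 := by
      have : (4 : ℤ) = 2 ^ 2 := by norm_num
      rw [this] at h
      exact hpi.dvd_of_dvd_pow h
    have h2 : p ∣ 2 := by exact_mod_cast h1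
    exact hp2 ((Nat.prime_dvd_prime_iff_eq hp.out Nat.prime_two).1 h2)
  have hd0 : D.eval t ≠ 0 := by
    intro h
    apply hne
    simp [h]
  obtain ⟨e, he1, he2⟩ := (Int.finiteMultiplicity_iff.2
    ⟨by rw [Int.natAbs_natCast]; exact hp.out.one_lt.ne', hd0⟩ :
      FiniteMultiplicity (p : ℤ) (D.eval t)).exists_eq_pow_mul_and_not_dvd
  set n := multiplicity (p : ℤ) (D.eval t)
  have c1 := col hS h3 h6 p hp2 A B (D.eval t) e n hB hC he1 he2
  have e16 : (-2 * A) ^ 2 - 4 * (A ^ 2 - 4 * B) = B * 4 ^ 2 := by ring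
  have c2 := col hS h3 h6 p hp2 (-2 * A) (A ^ 2 - 4 * B) (D.eval t) e n hC (by
    rw [e16]
    intro h
    exact (hpi.dvd_or_dvd h).elim hB (fun h => h2n (hpi.dvd_of_dvd_pow h))) he1 he2
  rw [e16, jac_sq_mul h2n] at c2
  have f1 : (C A * D).eval t = A * D.eval t := by simp
  have f2 : (C B * D ^ 2).eval t = B * (D.eval t) ^ 2 := by simp
  have f3 : -2 * (A * D.eval t) = (-2 * A) * D.eval t := by ring
  have f4 : (A * D.eval t) ^ 2 - 4 * (B * (D.eval t) ^ 2) = (A ^ 2 - 4 * B) * (D.eval t) ^ 2 := by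
    ring
  rw [f1, f2, f3, f4, c1, c2]
  -- the two symbols agree
  have hj : jacobiSym B p * jacobiSym (A ^ 2 - 4 * B) p = 1 := by
    rw [← jacobiSym.mul_left]
    obtain ⟨r, hr⟩ := hsq
    have hr' : ¬ (p : ℤ) ∣ r := fun h => hnd (by rw [hr]; exact h.mul_right _)
    rw [hr, ← _root_.sq]
    exact jacobiSym.sq_one' (gcd_one hr')
  constructor
  · rintro ⟨h1, h2⟩
    rw [h2, mul_one] at hj
    exact ⟨h1, hj⟩
  · rintro ⟨h1, h2⟩
    rw [h2, one_mul] at hj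
    exact ⟨h1, hj⟩

end Pool.Agent.L7h69.EA
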